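import Pool.Agent.Helper92.FR.GoalsA

/-!
# FR, packet THN: the kernel in `d` dimensions
-/

open MeasureTheory

namespace Pool.Agent.Helper97.FR

open Pool.Agent.Helper92.FR

lemma pi_integral (d : ℕ) (f : ℝ → ℝ) (s : Fin d → Set ℝ) :
    ∫ y in Set.pi Set.univ s, ∏ i, f (y i) = ∏ i, ∫ y in s i, f y := by
  rw [volume_pi, Measure.restrict_pi_pi]
  exact integral_fintype_prod_eq_prod (fun i => f) (μ := fun i => volume.restrict (s i))

theorem thn (hK : KerStmt) : ThnStmt := by
  intro d h ρ M hh hM hρ hρ2
  obtain ⟨k1, k2, k3, k4, -⟩ := hK h M hh hM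
  set k : ℝ → ℝ := fun y => kap h M * Real.cos (h * y / 2) ^ (2 * M) with hk
  have hkc : Continuous k := by
    rw [hk]
    fun_prop
  have hk0 : ∀ y, 0 ≤ k y := by
    intro y
    rw [hk]
    have : 0 ≤ Real.cos (h * y / 2) ^ (2 * M) := by
      rw [pow_mul]
      positivity
    positivity
  have hk1 : ∀ y, k y ≤ h * M / Real.pi := by
    intro y
    have h1 : Real.cos (h * y / 2) ^ (2 * M) ≤ 1 := by
      rw [pow_mul]
      exact pow_le_one₀ (sq_nonneg _) (Real.cos_sq_le_one _)
    calc k y = kap h M * Real.cos (h * y / 2) ^ (2 * M) := rfl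
      _ ≤ kap h M * 1 := mul_le_mul_of_nonneg_left h1 k1.le
      _ ≤ h * M / Real.pi := by rw [mul_one]; exact k2
  have hTH : ∀ y : Fin d → ℝ, TH h M y = ∏ i, k (y i) := fun y => rfl
  have hpos : 0 < Real.pi / h := div_pos Real.pi_pos hh
  have hcube : {y : Fin d → ℝ | ∀ i, |y i| ≤ Real.pi / h} =
      Set.pi Set.univ (fun _ => Set.Icc (-(Real.pi / h)) (Real.pi / h)) := by
    ext y
    simp only [Set.mem_ofPred_eq, Set.mem_pi, Set.mem_univ, true_implies, Set.mem_Icc, abs_le]
  have hI : ∫ y in Set.Icc (-(Real.pi / h)) (Real.pi / h), k y = 1 := by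
    rw [integral_Icc_eq_integral_Ioc, ← intervalIntegral.integral_of_le (by linarith)]
    exact k3
  have hint : ∀ s : Set ℝ, s ⊆ Set.Icc (-(Real.pi / h)) (Real.pi / h) → IntegrableOn k s := by
    intro s hs
    exact (hkc.continuousOn.integrableOn_compact isCompact_Icc).mono_set hs
  have hTHc : Continuous (fun y : Fin d → ℝ => TH h M y) := by
    simp only [hTH]
    exact continuous_finsetProd _ fun i _ => hkc.comp (continuous_apply i)
  have hTH0 : ∀ y : Fin d → ℝ, 0 ≤ TH h M y := fun y => by
    rw [hTH]
    exact Finset.prod_nonneg fun i _ => hk0 _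
  have hTHint : IntegrableOn (fun y : Fin d → ℝ => TH h M y)
      {y : Fin d → ℝ | ∀ i, |y i| ≤ Real.pi / h} := by
    refine hTHc.continuousOn.integrableOn_compact ?_
    rw [hcube]
    exact isCompact_univ_pi fun _ => isCompact_Icc
  refine ⟨fun y => ⟨hTH0 y, ?_⟩, ?_, ?_⟩
  · rw [hTH]
    calc ∏ i, k (y i) ≤ ∏ _i : Fin d, (h * M / Real.pi) :=
          Finset.prod_le_prod (fun i _ => hk0 _) (fun i _ => hk1 _)
      _ = (h * M / Real.pi) ^ d := by
          rw [Finset.prod_const, Finset.card_univ, Fintype.card_fin]
  · rw [hcube]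
    simp only [hTH]
    rw [pi_integral]
    simp only [hI, Finset.prod_const_one]
  · -- the tail
    set I : Set ℝ := Set.Icc (-(Real.pi / h)) (Real.pi / h) with hIdef
    set J : Set ℝ := {y | |y| ≤ Real.pi / h ∧ ρ < |y|} with hJdef
    have hJI : J ⊆ I := fun y hy => abs_le.mp hy.1
    have hJm : MeasurableSet J := by
      have m1 : MeasurableSet {y : ℝ | |y| ≤ Real.pi / h} := by
        have : IsClosed {y : ℝ | |y| ≤ Real.pi / h} := isClosed_le continuous_abs continuous_const
        exact this.measurableSet
      have m2 : MeasurableSet {y : ℝ | ρ < |y|} := by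
        have : IsOpen {y : ℝ | ρ < |y|} := isOpen_lt continuous_const continuous_abs
        exact this.measurableSet
      exact m1.inter m2
    have hJint : ∫ y in J, k y ≤ 2 * M * Real.exp (-(M * h ^ 2 * ρ ^ 2 / 4)) := by
      set E : ℝ := Real.exp (-(M * h ^ 2 * ρ ^ 2 / 4)) with hE
      have hvol : volume J ≤ ENNReal.ofReal (2 * (Real.pi / h)) := by
        calc volume J ≤ volume I := measure_mono hJI
          _ = ENNReal.ofReal (2 * (Real.pi / h)) := by
              rw [hIdef, Real.volume_Icc]
              congr 1
              ring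
      have hvolr : volume.real J ≤ 2 * (Real.pi / h) := by
        rw [measureReal_def]
        exact ENNReal.toReal_le_of_le_ofReal (by positivity) hvol
      calc ∫ y in J, k y ≤ ∫ _y in J, (h * M / Real.pi * E) := by
            refine setIntegral_mono_on (hint J hJI) ?_ hJm ?_
            · refine integrableOn_const ?_
              exact (hvol.trans_lt ENNReal.ofReal_lt_top).ne
            · intro y hy
              have h1 := k4 y hy.1
              have h2 : Real.exp (-(M * h ^ 2 * y ^ 2 / 4)) ≤ E := by
                rw [hE]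
                refine Real.exp_le_exp.mpr ?_
                have h3 : ρ ^ 2 ≤ y ^ 2 := by
                  rw [← sq_abs y]
                  exact pow_le_pow_left₀ hρ hy.2.le 2
                have h4 : (M : ℝ) * h ^ 2 * ρ ^ 2 ≤ M * h ^ 2 * y ^ 2 :=
                  mul_le_mul_of_nonneg_left h3 (by positivity)
                linarith
              calc k y = kap h M * Real.cos (h * y / 2) ^ (2 * M) := rfl
                _ ≤ kap h M * E := mul_le_mul_of_nonneg_left (h1.trans h2) k1.le
                _ ≤ h * M / Real.pi * E :=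
                  mul_le_mul_of_nonneg_right k2 (Real.exp_pos _).le
        _ = volume.real J * (h * M / Real.pi * E) := by
            rw [setIntegral_const, smul_eq_mul]
        _ ≤ 2 * (Real.pi / h) * (h * M / Real.pi * E) := by
            refine mul_le_mul_of_nonneg_right hvolr ?_
            positivity
        _ = 2 * M * E := by
            field_simp
    -- the pieces
    have hpiece : ∀ i : Fin d, ∫ y in {y : Fin d → ℝ | (∀ i, |y i| ≤ Real.pi / h) ∧ ρ < |y i|},
        TH h M y ≤ 2 * M * Real.exp (-(M * h ^ 2 * ρ ^ 2 / 4)) := by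
      intro i
      have h1 : {y : Fin d → ℝ | (∀ i, |y i| ≤ Real.pi / h) ∧ ρ < |y i|} =
          Set.pi Set.univ (Function.update (fun _ => I) i J) := by
        ext y
        simp only [Set.mem_ofPred_eq, Set.mem_pi, Set.mem_univ, true_implies]
        constructor
        · rintro ⟨a, b⟩ j
          by_cases hj : j = i
          · subst hj
            rw [Function.update_self]
            exact ⟨a j, b⟩
          · rw [Function.update_of_ne hj]
            exact abs_le.mp (a j)
        · intro a
          refine ⟨fun j => ?_, ?_⟩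
          · have := a j
            by_cases hj : j = i
            · subst hj
              rw [Function.update_self] at this
              exact this.1
            · rw [Function.update_of_ne hj] at this
              exact abs_le.mpr this
          · have := a i
            rw [Function.update_self] at this
            exact this.2
      rw [h1]
      simp only [hTH]
      rw [pi_integral, ← Finset.mul_prod_erase _ _ (Finset.mem_univ i), Function.update_self]
      have h2 : ∏ x ∈ Finset.univ.erase i, ∫ y in Function.update (fun _ => I) i J x, k y = 1 := by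
        refine Finset.prod_eq_one fun x hx => ?_
        rw [Function.update_of_ne (Finset.ne_of_mem_erase hx)]
        exact hI
      rw [h2, mul_one]
      exact hJint
    have hmeas : ∀ i : Fin d, MeasurableSet
        {y : Fin d → ℝ | (∀ i, |y i| ≤ Real.pi / h) ∧ ρ < |y i|} := by
      intro i
      have m1 : MeasurableSet {y : Fin d → ℝ | ∀ i, |y i| ≤ Real.pi / h} := by
        rw [hcube]
        exact MeasurableSet.univ_pi fun _ => measurableSet_Icc
      have m2 : MeasurableSet {y : Fin d → ℝ | ρ < |y i|} := by
        have : IsOpen {y : Fin d → ℝ | ρ < |y i|} :=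
          isOpen_lt continuous_const (continuous_abs.comp (continuous_apply i))
        exact this.measurableSet
      exact m1.inter m2
    have hset : {y : Fin d → ℝ | (∀ i, |y i| ≤ Real.pi / h) ∧ ∃ i, ρ < |y i|} =
        ⋃ i, {y : Fin d → ℝ | (∀ i, |y i| ≤ Real.pi / h) ∧ ρ < |y i|} := by
      ext y
      simp only [Set.mem_ofPred_eq, Set.mem_iUnion]
      constructor
      · rintro ⟨a, i, hi⟩
        exact ⟨i, a, hi⟩
      · rintro ⟨i, a, hi⟩
        exact ⟨a, i, hi⟩
    rw [hset]
    have hUm : MeasurableSet (⋃ i, {y : Fin d → ℝ | (∀ i, |y i| ≤ Real.pi / h) ∧ ρ < |y i|}) :=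
      MeasurableSet.iUnion hmeas
    calc ∫ y in ⋃ i, {y : Fin d → ℝ | (∀ i, |y i| ≤ Real.pi / h) ∧ ρ < |y i|}, TH h M y
        = ∫ y, (⋃ i, {y : Fin d → ℝ | (∀ i, |y i| ≤ Real.pi / h) ∧ ρ < |y i|}).indicator
            (fun y => TH h M y) y := (integral_indicator hUm).symm
      _ ≤ ∫ y, ∑ i, ({y : Fin d → ℝ | (∀ i, |y i| ≤ Real.pi / h) ∧ ρ < |y i|}).indicator
            (fun y => TH h M y) y := by
          refine integral_mono ?_ ?_ ?_
          · rw [integrable_indicator_iff hUm]
            exact hTHint.mono_set (by
              intro y hy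
              rw [Set.mem_iUnion] at hy
              obtain ⟨i, hi⟩ := hy
              exact hi.1)
          · refine integrable_finsetSum _ fun i _ => ?_
            rw [integrable_indicator_iff (hmeas i)]
            exact hTHint.mono_set (fun y hy => hy.1)
          · intro y
            by_cases hy : y ∈ ⋃ i, {y : Fin d → ℝ | (∀ i, |y i| ≤ Real.pi / h) ∧ ρ < |y i|}
            · simp only [Set.indicator_of_mem hy]
              rw [Set.mem_iUnion] at hy
              obtain ⟨i, hi⟩ := hy
              calc TH h M y = ({y : Fin d → ℝ | (∀ i, |y i| ≤ Real.pi / h) ∧ ρ < |y i|}).indicator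
                    (fun y => TH h M y) y := (Set.indicator_of_mem hi _).symm
                _ ≤ _ := Finset.single_le_sum
                    (f := fun i => ({y : Fin d → ℝ | (∀ i, |y i| ≤ Real.pi / h) ∧
                      ρ < |y i|}).indicator (fun y => TH h M y) y)
                    (fun j _ => Set.indicator_nonneg (fun y _ => hTH0 y) y) (Finset.mem_univ i)
            · simp only [Set.indicator_of_notMem hy]
              exact Finset.sum_nonneg fun j _ => Set.indicator_nonneg (fun y _ => hTH0 y) y
      _ = ∑ i, ∫ y, ({y : Fin d → ℝ | (∀ i, |y i| ≤ Real.pi / h) ∧ ρ < |y i|}).indicator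
            (fun y => TH h M y) y := by
          refine integral_finsetSum _ fun i _ => ?_
          rw [integrable_indicator_iff (hmeas i)]
          exact hTHint.mono_set (fun y hy => hy.1)
      _ = ∑ i, ∫ y in {y : Fin d → ℝ | (∀ i, |y i| ≤ Real.pi / h) ∧ ρ < |y i|}, TH h M y := by
          refine Finset.sum_congr rfl fun i _ => ?_
          rw [integral_indicator (hmeas i)]
      _ ≤ ∑ _i : Fin d, 2 * M * Real.exp (-(M * h ^ 2 * ρ ^ 2 / 4)) :=
          Finset.sum_le_sum fun i _ => hpiece i
      _ = 2 * d * M * Real.exp (-(M * h ^ 2 * ρ ^ 2 / 4)) := by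
          rw [Finset.sum_const, Finset.card_univ, Fintype.card_fin, nsmul_eq_mul]
          ring

end Pool.Agent.Helper97.FR
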